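import Pool.Agent.Y957.AD.Spec2

/-!
Project AD (helper957, MP_3e612f_nt): flows and bounded sequences from the almost everywhere
statement.
-/

set_option autoImplicit false

namespace Pool.Agent.Y950.AD

open Finset MeasureTheory Filter Topology
open Pool.Agent.Y957.AD
open scoped NNReal ENNReal

/-! ### averages -/

/-- summation by parts -/
theorem parts (c : ℕ → ℂ) (X : ℕ) :
    ∑ n ∈ Icc 1 X, c n / n = ∑ N ∈ Icc 1 X, ((1 / (N : ℂ)) * ∑ n ∈ Icc 1 N, c n) / ((N : ℂ) + 1) +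
      (∑ n ∈ Icc 1 X, c n) / ((X : ℂ) + 1) := by
  induction X with
  | zero => simp
  | succ X ih =>
    rw [Finset.sum_Icc_succ_top (by omega), ih, Finset.sum_Icc_succ_top (by omega),
      Finset.sum_Icc_succ_top (by omega)]
    have h1 : ((X : ℂ) + 1) ≠ 0 := by exact_mod_cast Nat.succ_ne_zero X
    have h2 : ((X : ℂ) + 1 + 1) ≠ 0 := by
      have : ((X + 2 : ℕ) : ℂ) ≠ 0 := by exact_mod_cast (by omega : X + 2 ≠ 0)
      push_cast at this
      intro h
      apply this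
      rw [← h]
      ring
    push_cast
    field_simp
    ring

/-- the average of absolute values of the Cesàro averages controls the logarithmic average -/
theorem log_of_almost (c : ℕ → ℂ) (M : ℝ) (hM : ∀ n, ‖c n‖ ≤ M)
    (h : Tendsto (fun X : ℕ => (1 / Real.log X) *
      ∑ N ∈ Icc 1 X, ‖(1 / (N : ℂ)) * ∑ n ∈ Icc 1 N, c n‖ / N) atTop (𝓝 0)) :
    Tendsto (fun X : ℕ => (1 / (Real.log X : ℂ)) * ∑ n ∈ Icc 1 X, c n / n) atTop (𝓝 0) := by
  have hM0 : 0 ≤ M := (norm_nonneg _).trans (hM 0)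
  have hlog : Tendsto (fun X : ℕ => M * (1 / Real.log X)) atTop (𝓝 0) := by
    have h1 : Tendsto (fun X : ℕ => Real.log X) atTop atTop :=
      Real.tendsto_log_atTop.comp tendsto_natCast_atTop_atTop
    have h2 := (h1.inv_tendsto_atTop).const_mul M
    rw [mul_zero] at h2
    refine h2.congr fun X => ?_
    simp [one_div]
  have hsum := h.add hlog
  rw [add_zero] at hsum
  refine squeeze_zero_norm' ?_ hsum
  filter_upwards [eventually_ge_atTop 2] with X hX
  have hlogX : 0 < Real.log X := Real.log_pos (by exact_mod_cast hX)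
  have e0 : ‖(1 / (Real.log X : ℂ))‖ = 1 / Real.log X := by
    rw [norm_div, norm_one, Complex.norm_real, Real.norm_eq_abs, abs_of_pos hlogX]
  rw [norm_mul, e0, mul_comm M, ← mul_add]
  apply mul_le_mul_of_nonneg_left _ (by positivity)
  rw [parts]
  refine (norm_add_le _ _).trans (add_le_add ?_ ?_)
  · refine (norm_sum_le _ _).trans (Finset.sum_le_sum fun N hN => ?_)
    rw [Finset.mem_Icc] at hN
    have hN0 : (0 : ℝ) < N := by exact_mod_cast hN.1
    rw [norm_div]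
    have e1 : ‖(N : ℂ) + 1‖ = (N : ℝ) + 1 := by
      have : ((N : ℂ) + 1) = ((N + 1 : ℕ) : ℂ) := by push_cast; rfl
      rw [this, Complex.norm_natCast]
      push_cast; rfl
    rw [e1]
    exact div_le_div_of_nonneg_left (norm_nonneg _) hN0 (by linarith)
  · have e1 : ‖(X : ℂ) + 1‖ = (X : ℝ) + 1 := by
      have : ((X : ℂ) + 1) = ((X + 1 : ℕ) : ℂ) := by push_cast; rfl
      rw [this, Complex.norm_natCast]
      push_cast; rfl
    rw [norm_div, e1, div_le_iff₀ (by positivity)]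
    calc ‖∑ n ∈ Icc 1 X, c n‖ ≤ ∑ n ∈ Icc 1 X, ‖c n‖ := norm_sum_le _ _
      _ ≤ ∑ n ∈ Icc 1 X, M := Finset.sum_le_sum fun n _ => hM n
      _ = X * M := by rw [Finset.sum_const, Nat.card_Icc, nsmul_eq_mul, Nat.add_sub_cancel]
      _ ≤ M * (X + 1) := by nlinarith

theorem norm_mu_le (n : ℕ) : ‖mu n‖ ≤ 1 := by
  unfold mu
  rw [Complex.norm_intCast]
  have h : |ArithmeticFunction.moebius n| ≤ 1 := ArithmeticFunction.abs_moebius_le_one
  exact_mod_cast h

/-- (F1) -/
theorem logAv (A : ℝ → ℂ) (M : ℝ) (hM : ∀ x, ‖A x‖ ≤ M) (α : ℝ) (h : AlmostScales A α) :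
    LogAv A α := by
  unfold LogAv
  unfold AlmostScales SA at h
  refine log_of_almost (fun n => mu n * A (α * n)) M (fun n => ?_) h
  rw [norm_mul]
  have h1 := norm_mu_le n
  have h2 := hM (α * n)
  calc ‖mu n‖ * ‖A (α * n)‖ ≤ 1 * ‖A (α * n)‖ := mul_le_mul_of_nonneg_right h1 (norm_nonneg _)
    _ ≤ M := by rw [one_mul]; exact h2

/-- harmonic sums -/
theorem harm (X : ℕ) : ∑ N ∈ Icc 1 X, (1 : ℝ) / N ≤ 1 + Real.log X := by
  have h := harmonic_le_one_add_log X
  rw [harmonic_eq_sum_Icc] at h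
  push_cast at h
  simpa [one_div] using h

/-- approximation -/
theorem almost_approx (A : ℝ → ℂ) (α : ℝ)
    (h : ∀ ε : ℝ, 0 < ε → ∃ B : ℝ → ℂ, (∀ n : ℕ, ‖A (α * n) - B (α * n)‖ ≤ ε) ∧
      AlmostScales B α) : AlmostScales A α := by
  unfold AlmostScales
  rw [Metric.tendsto_atTop]
  intro ε hε
  obtain ⟨B, hB, hBs⟩ := h (ε / 6) (by positivity)
  unfold AlmostScales at hBs
  obtain ⟨X0, hX0⟩ := (Metric.tendsto_atTop.1 hBs) (ε / 3) (by positivity)
  refine ⟨max X0 3, fun X hX => ?_⟩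
  have h1 := hX0 X ((le_max_left _ _).trans hX)
  have hX3 : (3 : ℝ) ≤ X := by exact_mod_cast (le_max_right _ _).trans hX
  have hlog1 : 1 ≤ Real.log X := by
    rw [Real.le_log_iff_exp_le (by linarith)]
    exact Real.exp_one_lt_three.le.trans hX3
  have hlog0 : 0 < Real.log X := by linarith
  rw [Real.dist_eq, sub_zero] at h1 ⊢
  have hnn : ∀ D : ℝ → ℂ, 0 ≤ (1 / Real.log X) * ∑ N ∈ Icc 1 X, ‖SA D α N‖ / N := by
    intro D
    apply mul_nonneg (by positivity)
    exact Finset.sum_nonneg fun N _ => by positivity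
  rw [abs_of_nonneg (hnn _)] at h1 ⊢
  have h2 : ∀ N : ℕ, ‖SA A α N‖ ≤ ‖SA B α N‖ + ε / 6 := by
    intro N
    have h3 : ‖SA A α N - SA B α N‖ ≤ ε / 6 := by
      rcases Nat.eq_zero_or_pos N with hN | hN
      · subst hN
        simp [SA]
        positivity
      · have hN0 : (0 : ℝ) < N := by exact_mod_cast hN
        unfold SA
        rw [← mul_sub, ← Finset.sum_sub_distrib, norm_mul]
        have e1 : ‖(1 / (N : ℂ))‖ = 1 / N := by
          rw [norm_div, norm_one, Complex.norm_natCast]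
        rw [e1]
        have h4 : ‖∑ n ∈ Icc 1 N, (mu n * A (α * n) - mu n * B (α * n))‖ ≤ N * (ε / 6) := by
          calc ‖∑ n ∈ Icc 1 N, (mu n * A (α * n) - mu n * B (α * n))‖ ≤
              ∑ n ∈ Icc 1 N, ‖mu n * A (α * n) - mu n * B (α * n)‖ := norm_sum_le _ _
            _ ≤ ∑ n ∈ Icc 1 N, ε / 6 := by
                refine Finset.sum_le_sum fun n _ => ?_
                rw [← mul_sub, norm_mul]
                calc ‖mu n‖ * ‖A (α * n) - B (α * n)‖ ≤ 1 * ‖A (α * n) - B (α * n)‖ :=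
                      mul_le_mul_of_nonneg_right (norm_mu_le n) (norm_nonneg _)
                  _ ≤ ε / 6 := by rw [one_mul]; exact hB n
            _ = N * (ε / 6) := by
                rw [Finset.sum_const, Nat.card_Icc, nsmul_eq_mul, Nat.add_sub_cancel]
        calc 1 / (N : ℝ) * ‖∑ n ∈ Icc 1 N, (mu n * A (α * n) - mu n * B (α * n))‖ ≤
            1 / (N : ℝ) * (N * (ε / 6)) := mul_le_mul_of_nonneg_left h4 (by positivity)
          _ = ε / 6 := by field_simp
    calc ‖SA A α N‖ = ‖SA B α N + (SA A α N - SA B α N)‖ := by congr 1; ring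
      _ ≤ ‖SA B α N‖ + ‖SA A α N - SA B α N‖ := norm_add_le _ _
      _ ≤ _ := by linarith
  have h5 : ∑ N ∈ Icc 1 X, ‖SA A α N‖ / N ≤ ∑ N ∈ Icc 1 X, ‖SA B α N‖ / N +
      ε / 6 * ∑ N ∈ Icc 1 X, (1 : ℝ) / N := by
    rw [Finset.mul_sum, ← Finset.sum_add_distrib]
    refine Finset.sum_le_sum fun N _ => ?_
    have : ‖SA A α N‖ / N ≤ (‖SA B α N‖ + ε / 6) / N :=
      div_le_div_of_nonneg_right (h2 N) (Nat.cast_nonneg _)
    calc ‖SA A α N‖ / N ≤ (‖SA B α N‖ + ε / 6) / N := this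
      _ = _ := by ring
  have h6 : ε / 6 * ∑ N ∈ Icc 1 X, (1 : ℝ) / N ≤ ε / 6 * (2 * Real.log X) :=
    mul_le_mul_of_nonneg_left ((harm X).trans (by linarith)) (by positivity)
  have h7 : (1 / Real.log X) * ∑ N ∈ Icc 1 X, ‖SA A α N‖ / N ≤
      (1 / Real.log X) * ∑ N ∈ Icc 1 X, ‖SA B α N‖ / N + ε / 3 := by
    calc (1 / Real.log X) * ∑ N ∈ Icc 1 X, ‖SA A α N‖ / N ≤
        (1 / Real.log X) * (∑ N ∈ Icc 1 X, ‖SA B α N‖ / N + ε / 6 * (2 * Real.log X)) :=
          mul_le_mul_of_nonneg_left (by linarith) (by positivity)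
      _ = _ := by field_simp; ring
  linarith

/-- scaling -/
theorem almost_smul (A : ℝ → ℂ) (α : ℝ) (c : ℂ) (h : AlmostScales A α) :
    AlmostScales (fun t => c * A t) α := by
  unfold AlmostScales at h ⊢
  have h1 := h.const_mul ‖c‖
  rw [mul_zero] at h1
  refine h1.congr fun X => ?_
  have h2 : ∀ N : ℕ, ‖SA (fun t => c * A t) α N‖ = ‖c‖ * ‖SA A α N‖ := by
    intro N
    rw [← norm_mul]
    congr 1
    unfold SA
    rw [Finset.mul_sum, Finset.mul_sum, Finset.mul_sum]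
    refine Finset.sum_congr rfl fun n _ => ?_
    ring
  simp_rw [h2]
  rw [mul_left_comm, Finset.mul_sum]
  congr 1
  refine Finset.sum_congr rfl fun N _ => ?_
  ring

/-! ### step functions -/

/-- functions of a monotone integer valued function -/
theorem polyVar_step (k : ℝ → ℤ) (hk : Monotone k) (C D : ℝ) (hD : 0 < D)
    (hkX : ∀ X : ℝ, 1 ≤ X → (k X : ℝ) - k 0 ≤ C * X ^ D) (g : ℤ → ℂ) (hg : ∀ n, ‖g n‖ ≤ 1) :
    PolyVar (fun x => g (k x)) := by
  refine ⟨2 * C, D, hD, fun X hX => ?_⟩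
  have hX0 : (0 : ℝ) ≤ X := by linarith
  set g' : ℝ → ℂ := fun y => g ⌊y⌋ with hg'
  have hlip : LipschitzOnWith 2 g' (Set.range (fun n : ℤ => (n : ℝ))) := by
    rw [lipschitzOnWith_iff_dist_le_mul]
    rintro _ ⟨m, rfl⟩ _ ⟨n, rfl⟩
    simp only [hg', Int.floor_intCast]
    rcases eq_or_ne m n with h | h
    · subst h; simp
    · have h1 : (1 : ℝ) ≤ dist (m : ℝ) (n : ℝ) := by
        rw [Real.dist_eq]
        have h2 : (1 : ℤ) ≤ |m - n| := Int.one_le_abs (sub_ne_zero.2 h)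
        exact_mod_cast h2
      have h3 : dist (g m) (g n) ≤ 2 := by
        rw [dist_eq_norm]
        exact (norm_sub_le _ _).trans (by linarith [hg m, hg n])
      push_cast
      linarith
  have h1 : eVariationOn (g' ∘ (fun x => ((k x : ℤ) : ℝ))) (Set.Icc 0 X) ≤
      2 * eVariationOn (fun x => ((k x : ℤ) : ℝ)) (Set.Icc 0 X) :=
    hlip.comp_eVariationOn_le (fun x _ => ⟨k x, rfl⟩)
  have e1 : g' ∘ (fun x => ((k x : ℤ) : ℝ)) = fun x => g (k x) := by
    funext x
    simp [hg']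
  rw [e1] at h1
  refine h1.trans ?_
  have hmono : MonotoneOn (fun x => ((k x : ℤ) : ℝ)) (Set.Icc 0 X) := fun x _ y _ hxy =>
    Int.cast_le.2 (hk hxy)
  have h2 := hmono.eVariationOn_eq (s := Set.Icc 0 X) (a := 0) (b := X) (Set.left_mem_Icc.2 hX0)
    (Set.right_mem_Icc.2 hX0)
  rw [Set.inter_self] at h2
  have h3 := hkX X hX
  calc 2 * eVariationOn (fun x => ((k x : ℤ) : ℝ)) (Set.Icc 0 X) ≤
      2 * ENNReal.ofReal ((k X : ℝ) - k 0) := by
        gcongr
        exact h2.le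
    _ ≤ 2 * ENNReal.ofReal (C * X ^ D) := by gcongr
    _ = ENNReal.ofReal (2 * C * X ^ D) := by
        rw [mul_assoc, ENNReal.ofReal_mul (by norm_num : (0 : ℝ) ≤ 2)]
        norm_num

/-! ### bounded sequences -/

theorem seq : S_AE → S_SEQ := by
  intro hAE a M hM c hc
  have hM0 : 0 ≤ M := (norm_nonneg _).trans (hM 0)
  set M' : ℝ := M + 1 with hM'
  have hM'0 : 0 < M' := by linarith
  have hM'c : (M' : ℂ) ≠ 0 := by exact_mod_cast hM'0.ne'
  set k : ℝ → ℤ := fun x => ⌊(max x 0) ^ c⌋ with hk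
  set g : ℤ → ℂ := fun n => a n.toNat / M' with hg
  have hg1 : ∀ n, ‖g n‖ ≤ 1 := by
    intro n
    rw [hg]
    simp only
    rw [norm_div, Complex.norm_real, Real.norm_eq_abs, abs_of_pos hM'0, div_le_one hM'0]
    linarith [hM n.toNat]
  have hkm : Monotone k := by
    intro x y hxy
    apply Int.floor_le_floor
    exact Real.rpow_le_rpow (le_max_right _ _) (max_le_max_right 0 hxy) hc.le
  have hpv : PolyVar (fun x => g (k x)) := by
    refine polyVar_step k hkm 1 c hc (fun X hX => ?_) g hg1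
    have e0 : k 0 = 0 := by
      rw [hk]
      simp [Real.zero_rpow hc.ne']
    rw [e0, hk]
    have h1 := Int.floor_le ((max X 0) ^ c)
    rw [max_eq_left (by linarith : (0 : ℝ) ≤ X)] at h1
    simp only
    rw [max_eq_left (by linarith : (0 : ℝ) ≤ X)]
    push_cast
    linarith
  have hkmeas : Measurable k := Int.measurable_floor.comp
    ((measurable_id.max measurable_const).pow_const c)
  have hmeas : Measurable (fun x => g (k x)) := (measurable_of_countable g).comp hkmeas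
  have hA := hAE (fun x => g (k x)) (fun x => hg1 _) hmeas hpv
  rw [ae_restrict_iff' measurableSet_Ioi] at hA ⊢
  -- the bad set
  set S : Set ℝ := {β : ℝ | ¬ (β ∈ Set.Ioi (0 : ℝ) → AlmostScales (fun x => g (k x)) β)} with hS
  have hS0 : volume S = 0 := hA
  have hSI : S ⊆ Set.Ioi 0 := by
    intro β hβ
    rw [hS, Set.mem_ofPred_eq] at hβ
    push Not at hβ
    exact hβ.1
  have himg : volume ((fun β : ℝ => β ^ c) '' S) = 0 := by
    apply addHaar_image_eq_zero_of_differentiableOn_of_addHaar_eq_zero volume _ hS0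
    intro β hβ
    have h1 : β ≠ 0 := (hSI hβ).ne'
    exact (Real.differentiableAt_rpow_const_of_ne c h1).differentiableWithinAt
  have hae : ∀ᵐ α : ℝ, α ∉ (fun β : ℝ => β ^ c) '' S := by
    rw [ae_iff]
    have e : {α : ℝ | ¬ α ∉ (fun β : ℝ => β ^ c) '' S} = (fun β : ℝ => β ^ c) '' S := by
      ext α
      simp only [Set.mem_ofPred_eq, not_not]
    rw [e]
    exact himg
  filter_upwards [hae] with α hα hα0
  have hα0' : (0 : ℝ) < α := hα0
  set β : ℝ := α ^ (1 / c) with hβ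
  have hβ0 : 0 < β := Real.rpow_pos_of_pos hα0' _
  have hβc : β ^ c = α := by
    rw [hβ, ← Real.rpow_mul hα0'.le, one_div, inv_mul_cancel₀ hc.ne', Real.rpow_one]
  have hAS : AlmostScales (fun x => g (k x)) β := by
    by_contra hcon
    apply hα
    refine ⟨β, ?_, hβc⟩
    rw [hS, Set.mem_ofPred_eq]
    push Not
    exact ⟨hβ0, hcon⟩
  have hAS2 := almost_smul _ β (M' : ℂ) hAS
  have hval : ∀ n : ℕ, (M' : ℂ) * g (k (β * n)) = a ⌊α * (n : ℝ) ^ c⌋₊ := by
    intro n
    have e1 : k (β * n) = ⌊α * (n : ℝ) ^ c⌋ := by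
      rw [hk]
      simp only
      rw [max_eq_left (by positivity), Real.mul_rpow hβ0.le (Nat.cast_nonneg _), hβc]
    rw [e1, hg]
    simp only
    rw [mul_div_cancel₀ _ hM'c]
    rfl
  have h1 : Tendsto (fun X : ℕ => (1 / Real.log X) * ∑ N ∈ Icc 1 X,
      ‖(1 / (N : ℂ)) * ∑ n ∈ Icc 1 N, mu n * a ⌊α * (n : ℝ) ^ c⌋₊‖ / N) atTop (nhds 0) := by
    unfold AlmostScales SA at hAS2
    refine hAS2.congr fun X => ?_
    congr 1
    refine Finset.sum_congr rfl fun N _ => ?_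
    congr 3
    refine Finset.sum_congr rfl fun n _ => ?_
    simp only [hval n]
  refine ⟨h1, log_of_almost (fun n => mu n * a ⌊α * (n : ℝ) ^ c⌋₊) M (fun n => ?_) h1⟩
  rw [norm_mul]
  calc ‖mu n‖ * ‖a ⌊α * (n : ℝ) ^ c⌋₊‖ ≤ 1 * ‖a ⌊α * (n : ℝ) ^ c⌋₊‖ :=
        mul_le_mul_of_nonneg_right (norm_mu_le n) (norm_nonneg _)
    _ ≤ M := by rw [one_mul]; exact hM _

/-! ### flows -/

universe u

/-- uniform continuity of the flow -/
theorem unif {X : Type u} [MetricSpace X] [CompactSpace X] (φ : Flow ℝ X) (f : C(X, ℂ)) (ε : ℝ)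
    (hε : 0 < ε) : ∃ δ : ℝ, 0 < δ ∧ ∀ s : ℝ, 0 ≤ s → s < δ → ∀ y : X, ‖f (φ s y) - f y‖ ≤ ε := by
  let G : C(ℝ × X, ℂ) := ⟨fun p => f (φ p.1 p.2), f.continuous.comp
    (φ.continuous continuous_fst continuous_snd)⟩
  have hc : Continuous (G.curry : ℝ → C(X, ℂ)) := G.curry.continuous
  obtain ⟨δ, hδ, h⟩ := (Metric.continuous_iff.1 hc) 0 ε hε
  refine ⟨δ, hδ, fun s hs0 hs y => ?_⟩
  have h1 := h s (by rw [Real.dist_eq, sub_zero, abs_of_nonneg hs0]; exact hs)
  have h2 := (ContinuousMap.dist_apply_le_dist (f := G.curry s) (g := G.curry 0) y).trans h1.le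
  have e1 : (G.curry s) y = f (φ s y) := rfl
  have e2 : (G.curry 0) y = f y := by
    change f (φ 0 y) = f y
    rw [φ.map_zero_apply]
  rw [e1, e2, dist_eq_norm] at h2
  exact h2

theorem flow_pos (hAE : S_AE) (X : Type u) [MetricSpace X] [CompactSpace X] (φ : Flow ℝ X) (x : X) :
    ∀ᵐ α ∂(volume.restrict (Set.Ioi (0 : ℝ))), ∀ f : C(X, ℂ),
      AlmostScales (fun t => f (φ t x)) α := by
  have hstep : ∀ᵐ α ∂(volume.restrict (Set.Ioi (0 : ℝ))), ∀ i q : ℕ,
      AlmostScales (fun t => (TopologicalSpace.denseSeq C(X, ℂ) i)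
        (φ ((⌊((q : ℝ) + 1) * t⌋ : ℝ) / ((q : ℝ) + 1)) x)) α := by
    rw [ae_all_iff]
    intro i
    rw [ae_all_iff]
    intro q
    set f : C(X, ℂ) := TopologicalSpace.denseSeq C(X, ℂ) i
    set B : ℝ := ‖f‖ + 1 with hB
    have hB0 : 0 < B := by positivity
    have hBc : (B : ℂ) ≠ 0 := by exact_mod_cast hB0.ne'
    have hq0 : (0 : ℝ) < (q : ℝ) + 1 := by positivity
    set k : ℝ → ℤ := fun t => ⌊((q : ℝ) + 1) * t⌋ with hk
    set g : ℤ → ℂ := fun n => f (φ ((n : ℝ) / ((q : ℝ) + 1)) x) / B with hg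
    have hg1 : ∀ n, ‖g n‖ ≤ 1 := by
      intro n
      rw [hg]
      simp only
      rw [norm_div, Complex.norm_real, Real.norm_eq_abs, abs_of_pos hB0, div_le_one hB0]
      have := f.norm_coe_le_norm (φ ((n : ℝ) / ((q : ℝ) + 1)) x)
      linarith
    have hkm : Monotone k := fun s t hst => Int.floor_le_floor
      (mul_le_mul_of_nonneg_left hst hq0.le)
    have hpv : PolyVar (fun t => g (k t)) := by
      refine polyVar_step k hkm ((q : ℝ) + 1) 1 one_pos (fun Y hY => ?_) g hg1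
      have e0 : k 0 = 0 := by
        rw [hk]; simp
      rw [e0, hk, Real.rpow_one]
      have := Int.floor_le (((q : ℝ) + 1) * Y)
      push_cast
      linarith
    have hkmeas : Measurable k := Int.measurable_floor.comp (measurable_id.const_mul _)
    have hmeas : Measurable (fun t => g (k t)) := (measurable_of_countable g).comp hkmeas
    have hA := hAE (fun t => g (k t)) (fun t => hg1 _) hmeas hpv
    filter_upwards [hA] with α hα
    have h1 := almost_smul _ α (B : ℂ) hα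
    have e : (fun t => (B : ℂ) * g (k t)) = fun t => f (φ ((⌊((q : ℝ) + 1) * t⌋ : ℝ) /
        ((q : ℝ) + 1)) x) := by
      funext t
      rw [hg]
      simp only
      rw [mul_div_cancel₀ _ hBc]
    rw [e] at h1
    exact h1
  filter_upwards [hstep] with α hα f
  refine almost_approx _ α fun ε hε => ?_
  obtain ⟨i, hi⟩ := (TopologicalSpace.denseRange_denseSeq C(X, ℂ)).exists_dist_lt f
    (by positivity : 0 < ε / 2)
  set d : C(X, ℂ) := TopologicalSpace.denseSeq C(X, ℂ) i with hd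
  obtain ⟨δ, hδ, hun⟩ := unif φ d (ε / 2) (by positivity)
  obtain ⟨q, hq⟩ := exists_nat_one_div_lt hδ
  refine ⟨_, fun n => ?_, hα i q⟩
  have hq0 : (0 : ℝ) < (q : ℝ) + 1 := by positivity
  set t : ℝ := α * n with ht
  set s : ℝ := t - (⌊((q : ℝ) + 1) * t⌋ : ℝ) / ((q : ℝ) + 1) with hs
  have hs0 : 0 ≤ s := by
    rw [hs, sub_nonneg, div_le_iff₀ hq0]
    have := Int.floor_le (((q : ℝ) + 1) * t)
    linarith
  have hs1 : s < δ := by
    refine lt_trans ?_ hq
    rw [hs, sub_lt_iff_lt_add, ← add_div, lt_div_iff₀ hq0]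
    have := Int.lt_floor_add_one (((q : ℝ) + 1) * t)
    linarith
  have h1 := hun s hs0 hs1 (φ ((⌊((q : ℝ) + 1) * t⌋ : ℝ) / ((q : ℝ) + 1)) x)
  rw [← φ.map_add] at h1
  have e1 : s + (⌊((q : ℝ) + 1) * t⌋ : ℝ) / ((q : ℝ) + 1) = t := by rw [hs]; ring
  rw [e1] at h1
  have h2 : ‖f (φ t x) - d (φ t x)‖ ≤ ε / 2 := by
    rw [← dist_eq_norm]
    exact (ContinuousMap.dist_apply_le_dist (f := f) (g := d) _).trans hi.le
  calc ‖f (φ t x) - d (φ ((⌊((q : ℝ) + 1) * t⌋ : ℝ) / ((q : ℝ) + 1)) x)‖ =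
      ‖(f (φ t x) - d (φ t x)) + (d (φ t x) - d (φ ((⌊((q : ℝ) + 1) * t⌋ : ℝ) /
        ((q : ℝ) + 1)) x))‖ := by congr 1; ring
    _ ≤ ε / 2 + ε / 2 := (norm_add_le _ _).trans (add_le_add h2 h1)
    _ = ε := by ring

theorem flow : S_AE → S_FLOW.{u} := by
  intro hAE X _ _ φ x
  have h1 := flow_pos hAE X φ x
  have h2 := flow_pos hAE X φ.reverse x
  rw [ae_restrict_iff' measurableSet_Ioi] at h1 h2
  have h3 : ∀ᵐ α : ℝ, -α ∈ Set.Ioi (0 : ℝ) → ∀ f : C(X, ℂ),
      AlmostScales (fun t => f (φ.reverse t x)) (-α) :=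
    (Measure.measurePreserving_neg (volume : Measure ℝ)).quasiMeasurePreserving.ae h2
  have h4 : ∀ᵐ α : ℝ, α ≠ 0 := by
    rw [ae_iff]
    simp
  filter_upwards [h1, h3, h4] with α ha hb hc f
  have key : AlmostScales (fun t => f (φ t x)) α := by
    rcases lt_or_gt_of_ne hc with h | h
    · have h5 := hb (by simpa using h) f
      unfold AlmostScales SA at h5 ⊢
      refine h5.congr fun Y => ?_
      congr 1
      refine Finset.sum_congr rfl fun N _ => ?_
      congr 3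
      refine Finset.sum_congr rfl fun n _ => ?_
      have e : φ.reverse (-α * n) x = φ (α * n) x := by
        change φ (-(-α * n)) x = φ (α * n) x
        congr 1
        ring
      simp only [e]
    · exact ha h f
  exact ⟨key, logAv _ ‖f‖ (fun t => f.norm_coe_le_norm _) α key⟩

end Pool.Agent.Y950.AD
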